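import Mathlib
import Pool.Agent.LGO.ZF.ModR
import Pool.Agent.LGO.ZG.Main
import Pool.Agent.LGO.PS.ArDefs

/-!
# LGO/ZH: rational curves without modular relations, in terms of isogenies of fixed degree

`nomd_of`: if no two coordinates of the rational curve `curve A B` are related by a fixed modular correspondence then
`PS.NoMd` holds for every pair of coordinates.
-/

namespace Pool.Agent.LGO.ZH

open Polynomial UpperHalfPlane Pool.Agent.Hhelper14.ZP Pool.Agent.Hhelper14.ZPL Pool.Agent.LGO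
  Pool.Agent.LGO.ZF Pool.Agent.LGO.ZG

variable {n : ℕ} {A B : Fin n → Polynomial Qb}

/-- finitely many correspondences for isogenies of degree `N` -/
theorem isog_reps {N : ℕ} (hN : 0 < N) : ∃ S : Set (GL (Fin 2) ℚ), S.Finite ∧
    (∀ g ∈ S, 0 < g.det.val) ∧ ∀ x y : ℂ, IsogDeg N x y →
      ∃ g ∈ S, ∃ τ : ℍ, x = jInv τ ∧ y = jInv (gact g τ) := by
  classical
  have hdet : ∀ B : DD N, 0 < B.1.det := fun B => by
    have h := B.2
    rw [h]
    exact_mod_cast hN
  choose G hG hmz using fun B : DD N => exists_gl (hdet B)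
  refine ⟨G '' FixedDetMatrices.reps (N : ℤ), (Set.toFinite _).image G, ?_, ?_⟩
  · rintro _ ⟨B, _, rfl⟩
    exact hG B
  · rintro x y ⟨τ, τ', g, hg, hmap, rfl, rfl⟩
    obtain ⟨B, hB, γ, h1⟩ := exists_rep hN (⟨g, hg⟩ : DD N)
    refine ⟨G B, ⟨B, hB, rfl⟩, τ, rfl, ?_⟩
    have e1 : τ' = act hN (⟨g, hg⟩ : DD N) τ := by
      apply UpperHalfPlane.ext
      rw [coe_act]
      have hne : ((g 1 0 : ℂ) * (τ : ℂ) + (g 1 1 : ℂ)) ≠ 0 := by
        intro h0
        have h2 := denom_ne_zero (toGL hN (⟨g, hg⟩ : DD N)) τ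
        apply h2
        simp only [denom, toGL_val]
        exact_mod_cast h0
      rw [eq_div_iff hne]
      exact hmap
    have e2 : (gact (G B) τ : ℂ) = (act hN B τ : ℂ) := by
      rw [← hmz B τ, coe_act]
      rfl
    have e3 : gact (G B) τ = act hN B τ := UpperHalfPlane.ext e2
    rw [e1, h1, act_smul, jInv_smul, e3]

theorem nomd_of (h : Rat0 A B) (hm : NoMod (curve A B)) {a b : Fin n} (hab : a ≠ b) :
    PS.NoMd ((A a).map (algebraMap Qb ℂ)) ((B a).map (algebraMap Qb ℂ))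
      ((A b).map (algebraMap Qb ℂ)) ((B b).map (algebraMap Qb ℂ)) := by
  classical
  intro N hN E
  obtain ⟨S, hS, hSd, hSr⟩ := isog_reps hN
  have hev : ∀ (P : Polynomial Qb) (t : ℂ), (P.map (algebraMap Qb ℂ)).eval t = (aeval t P : ℂ) :=
    fun P t => eval_map_algebraMap P t
  have key : ∀ g ∈ S, {t : ℂ | (∀ i, (aeval t (B i) : ℂ) ≠ 0) ∧
      (fun i => (aeval t (A i) / aeval t (B i) : ℂ)) ∈ MR b a g}.Finite := by
    intro g hg
    obtain ⟨x, hx, hnot⟩ := hm b a hab.symm g (hSd g hg)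
    have hcl := special_closed (mr_special hab.symm (hSd g hg))
    change MvPolynomial.zeroLocus ℂ (MvPolynomial.vanishingIdeal ℂ (MR b a g)) = MR b a g at hcl
    have hxm : x ∉ MR b a g := hnot
    rw [← hcl, MvPolynomial.mem_zeroLocus_iff] at hxm
    push Not at hxm
    obtain ⟨F, hF, hFx⟩ := hxm
    rw [MvPolynomial.aeval_eq_eval] at hFx
    rcases zero_or (A := A) h.ne F with h1 | h1
    · refine h1.subset ?_
      rintro t ⟨ht, htm⟩
      refine ⟨ht, ?_⟩
      rw [MvPolynomial.mem_vanishingIdeal_iff] at hF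
      have h2 := hF _ htm
      rwa [MvPolynomial.aeval_eq_eval] at h2
    · exfalso
      apply hFx
      have h2 : F ∈ MvPolynomial.vanishingIdeal ℂ (img A B) := by
        rw [MvPolynomial.mem_vanishingIdeal_iff]
        intro y hy
        rw [MvPolynomial.aeval_eq_eval]
        exact h1 y hy
      have h3 := (MvPolynomial.mem_zeroLocus_iff.mp hx) F h2
      rwa [MvPolynomial.aeval_eq_eval] at h3
  have hfin : ((E : Set ℂ) ∪ {t : ℂ | ∃ i, (aeval t (B i) : ℂ) = 0} ∪
      ⋃ g ∈ S, {t : ℂ | (∀ i, (aeval t (B i) : ℂ) ≠ 0) ∧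
        (fun i => (aeval t (A i) / aeval t (B i) : ℂ)) ∈ MR b a g}).Finite :=
    (E.finite_toSet.union (finite_poles h.ne)).union (hS.biUnion key)
  obtain ⟨t, ht⟩ := hfin.infinite_compl.nonempty
  rw [Set.mem_compl_iff, Set.mem_union, Set.mem_union, not_or, not_or] at ht
  obtain ⟨⟨ht1, ht2⟩, ht3⟩ := ht
  have ht2' : ∀ i, (aeval t (B i) : ℂ) ≠ 0 := fun i hi => ht2 ⟨i, hi⟩
  refine ⟨t, ?_, ?_, ?_, ?_⟩
  · simpa using ht1
  · rw [hev]
    exact ht2' a
  · rw [hev]
    exact ht2' b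
  · intro hiso
    apply ht3
    rw [hev, hev, hev, hev] at hiso
    obtain ⟨g, hg, τ, h1, h2⟩ := hSr _ _ hiso
    exact Set.mem_biUnion hg ⟨ht2', ⟨τ, h1, h2⟩⟩

end Pool.Agent.LGO.ZH
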