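import Mathlib
import Pool.Agent.LGO.ZG.Hts
import Pool.Agent.LGO.PS.ArDefs

/-!
# LGO/ZH: the heights of all coordinates from the pair theorem for a pair

`hts_thm`: from `PairThm` for one pair with a pole of the first function at infinity.
`hts_all`: every pair of functions with no modular relation, from `PairAll` and `PairS`.
-/

namespace Pool.Agent.LGO.ZH

open Polynomial Pool.Agent.Hhelper14.ZP Pool.Agent.Hhelper14.ZPL Pool.Agent.LGO Pool.Agent.LGO.U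
  Pool.Agent.LGO.ZF Pool.Agent.LGO.ZG

/-- no modular relation -/
def NoMdQ (Aa Ba Ab Bb : Polynomial Qb) : Prop :=
  PS.NoMd (Aa.map (algebraMap Qb ℂ)) (Ba.map (algebraMap Qb ℂ)) (Ab.map (algebraMap Qb ℂ))
    (Bb.map (algebraMap Qb ℂ))

/-- the pair theorem for pairs of functions of the same degree with a common pole at infinity -/
def PairS : Prop := ∀ Aa Ba Ab Bb : Polynomial Qb, IsCoprime Aa Ba → IsCoprime Ab Bb →
  Ba.natDegree < Aa.natDegree → Bb.natDegree < Ab.natDegree → Aa.natDegree = Ab.natDegree →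
  NoMdQ Aa Ba Ab Bb → ZF.PairThm Aa Ba Ab Bb

variable {n : ℕ} {A B : Fin n → Polynomial Qb}

private theorem Pair_fld {a : Fin n} (ha : (B a).natDegree < (A a).natDegree) :
    ∃ C : ℕ, 0 < C ∧ ∀ (K : IntermediateField ℚ ℂ) [FiniteDimensional ℚ K] (t : ℂ) (x : Fin n → ℂ),
      (∀ k, (aeval t (B k) : ℂ) ≠ 0 ∧ (aeval t (A k) : ℂ) = x k * aeval t (B k)) → x a ∈ K →
        ∃ K' : IntermediateField ℚ ℂ, K ≤ K' ∧ FiniteDimensional ℚ K' ∧
          Module.finrank ℚ K' ≤ C * Module.finrank ℚ K ∧ t ∈ K' ∧ (∀ k, x k ∈ K') ∧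
          ∀ k i, (((A k).coeff i : Qb) : ℂ) ∈ K' ∧ (((B k).coeff i : Qb) : ℂ) ∈ K' := by
  classical
  obtain ⟨C₂, hC₂, h2⟩ := fld_t (A a) (B a) ha (Finset.univ.image A ∪ Finset.univ.image B)
  refine ⟨C₂, hC₂, fun K _ t x hx hK => ?_⟩
  obtain ⟨K', hKK', hfd, hrk, htK, hcoef⟩ := h2 K (x a) t hK (hx a).2
  have hcA : ∀ k i, (((A k).coeff i : Qb) : ℂ) ∈ K' := fun k i =>
    hcoef (A k) (Finset.mem_union_left _ (Finset.mem_image_of_mem _ (Finset.mem_univ k))) i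
  have hcB : ∀ k i, (((B k).coeff i : Qb) : ℂ) ∈ K' := fun k i =>
    hcoef (B k) (Finset.mem_union_right _ (Finset.mem_image_of_mem _ (Finset.mem_univ k))) i
  refine ⟨K', hKK', hfd, hrk, htK, fun k => ?_, fun k i => ⟨hcA k i, hcB k i⟩⟩
  have e1 : x k = aeval t (A k) / aeval t (B k) := by
    rw [(hx k).2, mul_div_cancel_right₀ _ (hx k).1]
  rw [e1]
  exact div_mem (mem_aeval htK (hcA k)) (mem_aeval htK (hcB k))

/-- the heights from the pair theorem, pole of the first function at infinity -/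
theorem hts_thm {a b : Fin n} (hT : ZF.PairThm (A a) (B a) (A b) (B b))
    (ha : (B a).natDegree < (A a).natDegree) :
    ∃ (C : ℕ) (T : Set ℂ), T.Finite ∧ ∀ (t : ℂ) (x : Fin n → ℂ), t ∉ T →
      (∀ k, (aeval t (B k) : ℂ) ≠ 0 ∧ (aeval t (A k) : ℂ) = x k * aeval t (B k)) →
      NCM (x b) → (∃ N, 0 < N ∧ IsogDeg N (x b) (x a)) →
      ∀ (K : IntermediateField ℚ ℂ) [FiniteDimensional ℚ K], x a ∈ K →
        ∃ K' : IntermediateField ℚ ℂ, K ≤ K' ∧ FiniteDimensional ℚ K' ∧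
          (Module.finrank ℚ K' : ℝ) ≤ C * Module.finrank ℚ K ∧
          ∀ k, Bd K' (((C : ℝ) * Module.finrank ℚ K) ^ C) (x k) := by
  classical
  obtain ⟨C₁, T, hT, h1⟩ := hT
  obtain ⟨C₂, hC₂, h2⟩ := Pair_fld (A := A) (B := B) ha
  choose C₃ hC₃ h3 using fun k => bd_ratio (A k) (B k)
  choose E hE h4 using fun k => pw_absorb (C₃ k * C₂) (C₁ * C₂) C₁
  refine ⟨C₂ + ∑ k, E k, T, hT, ?_⟩
  intro t x ht hx hncm hiso K _ hK
  set D : ℕ := Module.finrank ℚ K with hD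
  have hD1 : 1 ≤ D := Module.finrank_pos
  have hD1' : (1 : ℝ) ≤ D := by exact_mod_cast hD1
  obtain ⟨K', hKK', hfd, hrk, htK, hxK, hcoef⟩ := h2 K t x hx hK
  obtain ⟨-, h6⟩ := h1 K' (x a) (x b) t (fun i => ⟨(hcoef a i).1, (hcoef a i).2, (hcoef b i).1,
    (hcoef b i).2⟩) (hxK a) (hxK b) htK ht hncm hiso (hx a).1 (hx a).2 (hx b).1 (hx b).2
  have hrk' : (Module.finrank ℚ K' : ℝ) ≤ C₂ * D := by exact_mod_cast hrk
  have hM : ((C₁ : ℝ) * Module.finrank ℚ K') ^ C₁ ≤ (((C₁ * C₂ : ℕ) : ℝ) * D) ^ C₁ := by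
    refine pow_le_pow_left₀ (by positivity) ?_ _
    calc (C₁ : ℝ) * Module.finrank ℚ K' ≤ C₁ * (C₂ * D) :=
          mul_le_mul_of_nonneg_left hrk' (Nat.cast_nonneg _)
      _ = ((C₁ * C₂ : ℕ) : ℝ) * D := by push_cast; ring
  refine ⟨K', hKK', hfd, ?_, ?_⟩
  · refine hrk'.trans (mul_le_mul_of_nonneg_right ?_ (by linarith))
    exact_mod_cast Nat.le_add_right _ _
  · intro k
    have e1 := h3 k K' _ t (x k) h6.nonneg h6 (hxK k) (hx k).1 (hx k).2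
    refine e1.mono ?_
    have hC3 : (0 : ℝ) ≤ C₃ k := by linarith [hC₃ k]
    calc C₃ k * Module.finrank ℚ K' * (1 + ((C₁ : ℝ) * Module.finrank ℚ K') ^ C₁)
        ≤ C₃ k * (C₂ * D) * (1 + (((C₁ * C₂ : ℕ) : ℝ) * D) ^ C₁) := by
          refine mul_le_mul (mul_le_mul_of_nonneg_left hrk' hC3) (by linarith) (by positivity)
            (by positivity)
      _ = C₃ k * C₂ * D * (1 + (((C₁ * C₂ : ℕ) : ℝ) * D) ^ C₁) := by ring
      _ ≤ ((E k : ℝ) * D) ^ E k := h4 k D hD1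
      _ ≤ (((C₂ + ∑ k, E k : ℕ) : ℝ) * D) ^ (C₂ + ∑ k, E k) := by
          refine pw_mono ?_ hD1
          have : E k ≤ ∑ k, E k := Finset.single_le_sum (fun _ _ => Nat.zero_le _) (Finset.mem_univ k)
          omega

/-- the absence of a modular relation does not depend on the parameter -/
private theorem Pair_nomd {c : Qb} {Aa Ba Ab Bb Aa' Ba' Ab' Bb' : Polynomial Qb} {m l : ℕ}
    (h : NoMdQ Aa Ba Ab Bb)
    (h1 : ∀ t : ℂ, t ≠ c → (aeval (t - (c : ℂ))⁻¹ Aa' : ℂ) = ((t - (c : ℂ))⁻¹) ^ m * aeval t Aa ∧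
      (aeval (t - (c : ℂ))⁻¹ Ba' : ℂ) = ((t - (c : ℂ))⁻¹) ^ m * aeval t Ba)
    (h2 : ∀ t : ℂ, t ≠ c → (aeval (t - (c : ℂ))⁻¹ Ab' : ℂ) = ((t - (c : ℂ))⁻¹) ^ l * aeval t Ab ∧
      (aeval (t - (c : ℂ))⁻¹ Bb' : ℂ) = ((t - (c : ℂ))⁻¹) ^ l * aeval t Bb) :
    NoMdQ Aa' Ba' Ab' Bb' := by
  classical
  intro N hN E
  obtain ⟨t, ht, hBa, hBb, hiso⟩ := h N hN (insert (c : ℂ) (E.image fun z : ℂ => (c : ℂ) + z⁻¹))
  rw [Finset.mem_insert, not_or] at ht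
  obtain ⟨htc, htE⟩ := ht
  have hz : (t - (c : ℂ))⁻¹ ≠ 0 := inv_ne_zero (sub_ne_zero.2 htc)
  have hev : ∀ (P : Polynomial Qb) (t : ℂ), (P.map (algebraMap Qb ℂ)).eval t = (aeval t P : ℂ) :=
    fun P t => eval_map_algebraMap P t
  rw [hev] at hBa hBb
  rw [hev, hev, hev, hev] at hiso
  refine ⟨(t - (c : ℂ))⁻¹, ?_, ?_, ?_, ?_⟩
  · intro hE
    apply htE
    rw [Finset.mem_image]
    refine ⟨_, hE, ?_⟩
    rw [inv_inv]
    ring
  · rw [hev, (h1 t htc).2]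
    exact mul_ne_zero (pow_ne_zero _ hz) hBa
  · rw [hev, (h2 t htc).2]
    exact mul_ne_zero (pow_ne_zero _ hz) hBb
  · rw [hev, hev, hev, hev, (h1 t htc).1, (h1 t htc).2, (h2 t htc).1, (h2 t htc).2,
      mul_div_mul_left _ _ (pow_ne_zero _ hz), mul_div_mul_left _ _ (pow_ne_zero _ hz)]
    exact hiso

/-- the pair theorem for all pairs, pole of the first function at infinity -/
theorem pairThm_all (hP : ZG.PairAll) (hS : PairS) {Aa Ba Ab Bb : Polynomial Qb} (ca : IsCoprime Aa Ba)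
    (cb : IsCoprime Ab Bb) (ha : Ba.natDegree < Aa.natDegree) (hb : 1 ≤ rdeg Ab Bb)
    (hmd : NoMdQ Aa Ba Ab Bb) : ZF.PairThm Aa Ba Ab Bb := by
  by_cases h1 : Bb.natDegree < Ab.natDegree
  · by_cases h2 : rdeg Aa Ba = rdeg Ab Bb
    · refine hS Aa Ba Ab Bb ca cb ha h1 ?_ hmd
      have e1 : rdeg Aa Ba = Aa.natDegree := max_eq_left ha.le
      have e2 : rdeg Ab Bb = Ab.natDegree := max_eq_left h1.le
      rw [← e1, ← e2, h2]
    · exact hP Aa Ba Ab Bb ca cb ha hb (Or.inr h2)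
  · exact hP Aa Ba Ab Bb ca cb ha hb (Or.inl (not_lt.1 h1))

/-- the heights of all coordinates if two of them are isogenous, not CM, and not modular related -/
theorem hts_all (h : Rat0 A B) (hP : ZG.PairAll) (hS : PairS) {a b : Fin n}
    (hmd : NoMdQ (A a) (B a) (A b) (B b)) :
    ∃ (C : ℕ) (T : Set ℂ), T.Finite ∧ ∀ (t : ℂ) (x : Fin n → ℂ), t ∉ T →
      (∀ k, (aeval t (B k) : ℂ) ≠ 0 ∧ (aeval t (A k) : ℂ) = x k * aeval t (B k)) →
      NCM (x b) → (∃ N, 0 < N ∧ IsogDeg N (x b) (x a)) →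
      ∀ (K : IntermediateField ℚ ℂ) [FiniteDimensional ℚ K], x a ∈ K →
        ∃ K' : IntermediateField ℚ ℂ, K ≤ K' ∧ FiniteDimensional ℚ K' ∧
          (Module.finrank ℚ K' : ℝ) ≤ C * Module.finrank ℚ K ∧
          ∀ k, Bd K' (((C : ℝ) * Module.finrank ℚ K) ^ C) (x k) := by
  have hd : ∀ i, 1 ≤ rdeg (A i) (B i) := h.nc
  rcases has_pole h a with ⟨c, hca⟩ | ha
  · choose A' B' h1 h2 h3 h4 h5 using fun k => mob c (h.cop k) (hd k)
    have hmd' : NoMdQ (A' a) (B' a) (A' b) (B' b) := Pair_nomd hmd (h3 a) (h3 b)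
    obtain ⟨C, T, hT, h⟩ := hts_thm (A := A') (B := B')
      (pairThm_all hP hS (h1 a) (h1 b) (h4 a hca) (by rw [h2]; exact hd b) hmd') (h4 a hca)
    refine ⟨C, {(c : ℂ)} ∪ (fun z : ℂ => c + z⁻¹) '' T, (Set.finite_singleton _).union (hT.image _),
      fun t x ht hx hncm hiso K _ hK => ?_⟩
    have htc : t ≠ c := fun h => ht (Or.inl h)
    have hz : (t - (c : ℂ))⁻¹ ≠ 0 := inv_ne_zero (sub_ne_zero.2 htc)
    refine h (t - (c : ℂ))⁻¹ x ?_ (fun k => ?_) hncm hiso K hK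
    · intro hmem
      apply ht
      refine Or.inr ⟨(t - (c : ℂ))⁻¹, hmem, ?_⟩
      show (c : ℂ) + ((t - (c : ℂ))⁻¹)⁻¹ = t
      rw [inv_inv]
      ring
    · obtain ⟨e1, e2⟩ := h3 k t htc
      rw [e1, e2]
      refine ⟨mul_ne_zero (pow_ne_zero _ hz) (hx k).1, ?_⟩
      rw [(hx k).2]
      ring
  · exact hts_thm (pairThm_all hP hS (h.cop a) (h.cop b) ha (hd b) hmd) ha

end Pool.Agent.LGO.ZH
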