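import Mathlib
import Pool.Agent.LGO.ZG.Main
import Pool.Agent.LGO.ZG.InC
import Pool.Agent.LGO.AXG.GenR
import Pool.Agent.LGO.ZH.NoMd
import Pool.Agent.LGO.ZH.Pair

/-!
# LGO/ZH: every rational curve with nonconstant coordinates, from `PairAll` and `PairS`

`main_all`: the Zilber-Pink statement for the closure of any rational curve with nonconstant coordinates.
-/

namespace Pool.Agent.LGO.ZH

open Polynomial UpperHalfPlane Pool.Agent.Hhelper14.ZP Pool.Agent.Hhelper14.ZPL Pool.Agent.LGO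
  Pool.Agent.LGO.U Pool.Agent.LGO.ZF Pool.Agent.LGO.ZG Pool.Agent.LGO.PWG Pool.Agent.ZPE

variable {n mm : ℕ} {V : Set (Fin n → ℂ)} {A B : Fin n → Polynomial Qb}

/-- the heights if two coordinates are isogenous and not CM -/
theorem hb_all (hp : Par V A B) (h : Rat0 A B) (hP : ZG.PairAll) (hS : PairS) (i : Fin mm → Fin n)
    {a b : Fin mm} (hmd : NoMdQ (A (i a)) (B (i a)) (A (i b)) (B (i b))) :
    ∃ (C : ℕ) (E : Set (Fin n → ℂ)), E.Finite ∧ ∀ x ∈ V, x ∉ E → NCM (x (i a)) → NCM (x (i b)) →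
      HeckeRel (x (i a)) (x (i b)) → HB i C x := by
  obtain ⟨E, hE, hpar⟩ := hp.par
  obtain ⟨C, T, hT, h1⟩ := hts_all h hP hS hmd
  refine ⟨C, E ∪ _, hE.union (fin_par (A := A) (B := B) hT), ?_⟩
  intro x hx hxE ha hb hab' K _ hK
  obtain ⟨t, ht⟩ := hpar x hx fun h => hxE (Or.inl h)
  have htT : t ∉ T := fun h => hxE (Or.inr ⟨t, h, ht⟩)
  obtain ⟨N, hN, hiso⟩ := heckeRel_iff.mp hab'
  exact h1 t x htT (fun k => ⟨(ht k).1, (ht k).2.symm⟩) hb ⟨N, hN, hiso.symm⟩ K (hK a)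

private theorem Types_alg (h : Par V A B) {a b : Fin n} (hab : a ≠ b) {x : Fin n → ℂ} (hx : x ∈ V)
    (hr : HeckeRel (x a) (x b)) (c : Fin n) : IsAlgebraic ℚ (x c) :=
  PW.alg_of_isog h.irr h.kcl h.dim hab (h.nomod _ _ hab) hx (heckeRel_iff.mp hr) c

/-- type 2 -/
theorem t2_all (h : Par V A B) (h0 : Rat0 A B) (hP : ZG.PairAll) (hS : PairS) (i : Fin 4 → Fin n)
    (hi : Function.Injective i)
    (hmd : NoMdQ (A (i 0)) (B (i 0)) (A (i 1)) (B (i 1)))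
    (hF : FinAbs Q2 {y : Fin 4 → ℂ | ∃ x ∈ V, y = fun a => x (i a)}) :
    {x ∈ V | (∀ a, NCM (x (i a))) ∧ HeckeRel (x (i 0)) (x (i 1)) ∧
      HeckeRel (x (i 2)) (x (i 3))}.Finite := by
  obtain ⟨C₂, hC₂⟩ := iso_q
  obtain ⟨C, E, hE, h1⟩ := hb_all h h0 hP hS i hmd
  refine fin_z h (by omega) i (fun H H' hH x hx => ⟨hx.1.mono hH, hx.2.mono hH⟩) hF
    (fun x hx => hx.1) hE C (fun x hx hxE => h1 x hx.1 hxE (hx.2.1 _) (hx.2.1 _) hx.2.2.1) ?_ C₂ ?_
  · intro x hx a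
    exact Types_alg h (hi.ne (by decide : (0 : Fin 4) ≠ 1)) hx.1 hx.2.2.1 _
  · intro x hx hxE K _ M hM hK hb s
    exact ⟨hC₂ K M _ _ hM hK (hb _) (hb _) (hx.2.1 0) (hx.2.1 1) hx.2.2.1 s,
      hC₂ K M _ _ hM hK (hb _) (hb _) (hx.2.1 2) (hx.2.1 3) hx.2.2.2 s⟩

/-- type 1 -/
theorem t1_all (h : Par V A B) (h0 : Rat0 A B) (hP : ZG.PairAll) (hS : PairS) (i : Fin 3 → Fin n)
    (hi : Function.Injective i)
    (hmd : NoMdQ (A (i 0)) (B (i 0)) (A (i 1)) (B (i 1)))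
    (hF : FinAbs Q1 {y : Fin 3 → ℂ | ∃ x ∈ V, y = fun a => x (i a)}) :
    {x ∈ V | (∀ a, NCM (x (i a))) ∧ HeckeRel (x (i 0)) (x (i 1)) ∧
      HeckeRel (x (i 0)) (x (i 2))}.Finite := by
  obtain ⟨C₂, hC₂⟩ := iso_q
  obtain ⟨C, E, hE, h1⟩ := hb_all h h0 hP hS i hmd
  refine fin_z h (by omega) i (fun H H' hH x hx a b => (hx a b).mono hH) hF
    (fun x hx => hx.1) hE C (fun x hx hxE => h1 x hx.1 hxE (hx.2.1 _) (hx.2.1 _) hx.2.2.1) ?_ C₂ ?_
  · intro x hx a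
    exact Types_alg h (hi.ne (by decide : (0 : Fin 3) ≠ 1)) hx.1 hx.2.2.1 _
  · intro x hx hxE K _ M hM hK hb s a b
    have hall : ∀ a, HeckeRel (x (i 0)) (x (i a)) := by
      intro a
      fin_cases a
      · exact HeckeRel.refl' _
      · exact hx.2.2.1
      · exact hx.2.2.2
    exact hC₂ K M _ _ hM hK (hb _) (hb _) (hx.2.1 a) (hx.2.1 b)
      (HeckeRel.trans' (HeckeRel.symm' (hall a)) (hall b)) s

/-- finitely many points on special subvarieties of codimension at least two -/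
theorem atyp_all (h : Rat0 A B) (hn : 0 < n) (hP : ZG.PairAll) (hS : PairS)
    (hm : NoMod (curve A B)) : (Atyp (curve A B)).Finite := by
  have hp := h.par hn hm
  have hF := AXG.allFin h hm
  refine atyp_finite ?_ ?_ ?_ ?_
  · intro i hi
    exact t1_all hp h hP hS i hi (nomd_of h hm (hi.ne (by decide : (0 : Fin 3) ≠ 1))) (hF.f1 i hi)
  · intro i hi
    exact t2_all hp h hP hS i hi (nomd_of h hm (hi.ne (by decide : (0 : Fin 4) ≠ 1))) (hF.f2 i hi)
  · intro i hi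
    exact t3_z hp h cmAll i hi (hF.f3 i hi)
  · intro i hi
    exact t4_z hp h cmAll (fun _ hx => cm_alg hx) i (hF.f4 i hi)

/-- **Theorem ALL**: every rational curve with nonconstant coordinates -/
theorem main_all (h : Rat0 A B) (hn : 0 < n) (hP : ZG.PairAll) (hS : PairS) :
    FinAtypical (curve A B) := by
  by_cases hm : NoMod (curve A B)
  · exact crit (curve_irred h.ne) (rat_dim h hn) (atyp_all h hn hP hS hm)
  · simp only [NoMod] at hm
    push Not at hm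
    obtain ⟨a, b, hab, g, hg, hx⟩ := hm
    exact fin_of_mod hab g hg hx

end Pool.Agent.LGO.ZH
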