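import Mathlib
import Pool.Agent.LGO.ZH.Types
import Pool.Agent.LGO.ZG.InP
import Pool.Agent.LGO.PS.Main

/-!
# LGO/ZH: Theorem ALL
-/

namespace Pool.Agent.LGO.ZH

open Polynomial Pool.Agent.Hhelper14.ZP Pool.Agent.Hhelper14.ZPL Pool.Agent.LGO
  Pool.Agent.LGO.ZF Pool.Agent.LGO.ZG Pool.Agent.ZPE

variable {n : ℕ} {A B : Fin n → Polynomial Qb}

theorem pairS : PairS := fun _ _ _ _ ca cb hda hdb hr hm => PS.pairThm ca cb hda hdb hr hm

/-- **Theorem ALL**: every rational curve with nonconstant coordinates -/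
theorem main_rat (h : Rat0 A B) (hn : 0 < n) : FinAtypical (curve A B) :=
  main_all h hn pairAll pairS

end Pool.Agent.LGO.ZH
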